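import Mathlib
set_option autoImplicit false

namespace Pool.Agent.H.MP_a8759f_co
open Finset
variable {W : Type} [DecidableEq W]

def Sh (T : ℕ → Prop) (F : ℕ → Finset W) : Prop := ∀ j, T j → ∀ i < j, T i →
  ∃ k < j, T k ∧ ∃ v ∈ F j, F i ∩ F j ⊆ (F j).erase v ∧ (F j).erase v ⊆ F k

theorem Sh.link {T : ℕ → Prop} {F : ℕ → Finset W} (h : Sh T F) (φ : Finset W) :
    Sh (fun i => T i ∧ φ ⊆ F i) F := fun j hj i l hi => by
  obtain ⟨k, k1, k2, v, v1, v2, v3⟩ := h j hj.1 i l hi.1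
  exact ⟨k, k1, ⟨k2, ((subset_inter hi.2 hj.2).trans v2).trans v3⟩, v, v1, v2, v3⟩

abbrev P3 := Equiv.Perm (Fin 3)

def Fl {Y : Type} [MulAction P3 Y] (g : W → W → P3) (s : W → Y) (G : Finset W) : Prop :=
  ∀ x ∈ G, ∀ y ∈ G, g x y • s x = s y

theorem uniq {T : ℕ → Prop} {F : ℕ → Finset W} (h : Sh T F) (M : Finset W) (g : W → W → P3)
    (h1 : ∀ i, T i → 2 ≤ (F i \ M).card) (s s' : W → Fin 3) (t : ℕ)
    (hs : ∀ i < t, T i → Fl g s (F i \ M)) (hs' : ∀ i < t, T i → Fl g s' (F i \ M))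
    {i j : ℕ} (hi : i < t) (hj : j < t) (ti : T i) (tj : T j) {p q : W} (hp : p ∈ F i \ M)
    (hq : q ∈ F j \ M) (e : s p = s' p) : s q = s' q := by
  classical
  have k1 : ∀ i < t, T i → ∀ p ∈ F i \ M, s p = s' p → ∀ q ∈ F i \ M, s q = s' q :=
    fun i hi ti p hp e q hq => by rw [← hs i hi ti p hp q hq, ← hs' i hi ti p hp q hq, e]
  have ex : ∃ i, T i := ⟨i, ti⟩
  have k2 : ∀ j < t, T j → ((∀ q ∈ F j \ M, s q = s' q) ↔ ∀ q ∈ F (Nat.find ex) \ M, s q = s' q) := by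
    intro j
    induction j using Nat.strong_induction_on with
    | _ j ih =>
      intro hj tj
      rcases (Nat.find_min' ex tj).eq_or_lt with e | l
      · rw [e]
      obtain ⟨k, c1, c2, v, -, -, c3⟩ := h j tj _ l (Nat.find_spec ex)
      obtain ⟨z, z1, z2⟩ := exists_mem_ne (h1 j tj) v
      have z3 : z ∈ F k \ M := mem_sdiff.2 ⟨c3 (mem_erase.2 ⟨z2, (mem_sdiff.1 z1).1⟩), (mem_sdiff.1 z1).2⟩
      rw [← ih k c1 (c1.trans hj) c2]
      exact ⟨fun a => k1 k (c1.trans hj) c2 z z3 (a z z1), fun a => k1 j hj tj z z1 (a z z3)⟩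
  exact (k2 j hj tj).2 ((k2 i hi ti).1 (k1 i hi ti p hp e)) q hq

theorem exte {Y : Type} [MulAction P3 Y] {T : ℕ → Prop} {F : ℕ → Finset W} (h : Sh T F)
    (M : Finset W) (g : W → W → P3) (t : ℕ) (h1 : T t → 2 ≤ (F t \ M).card)
    (h2 : T t → ∀ x ∈ F t \ M, ∀ y ∈ F t \ M, ∀ z ∈ F t \ M, g y z * g x y = g x z) (s : W → Y)
    (hs : ∀ i < t, T i → Fl g s (F i \ M)) :
    (∃ s' : W → Y, (∀ i < t, T i → ∀ p ∈ F i, s' p = s p) ∧ ∀ i < t + 1, T i → Fl g s' (F i \ M)) ∨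
      T t ∧ (F t \ M).card = 2 ∧ ∀ x ∈ F t \ M, ∃ k < t, T k ∧ (F t).erase x ⊆ F k := by
  classical
  by_cases tt : T t
  swap
  · exact Or.inl ⟨s, fun _ _ _ _ _ => rfl, fun i hi ti =>
      hs i (lt_of_le_of_ne (by omega) fun e => tt (e ▸ ti)) ti⟩
  by_cases c : (F t \ M).card = 2 ∧ ∀ x ∈ F t \ M, ∃ k < t, T k ∧ (F t).erase x ⊆ F k
  · exact Or.inr ⟨tt, c⟩
  obtain ⟨z, z1, z2⟩ : ∃ z ∈ F t \ M, ∀ y ∈ F t \ M, (∃ i < t, T i ∧ y ∈ F i) →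
      ∃ v, v ≠ z ∧ v ≠ y ∧ ∃ k < t, T k ∧ (F t).erase v ⊆ F k := by
    by_cases c' : ∀ x ∈ F t \ M, ∃ k < t, T k ∧ (F t).erase x ⊆ F k
    · have c3 : 2 < (F t \ M).card := lt_of_le_of_ne (h1 tt) fun e => c ⟨e.symm, c'⟩
      obtain ⟨z, hz⟩ := card_pos.1 (two_pos.trans c3)
      refine ⟨z, hz, fun y _ _ => ?_⟩
      obtain ⟨v, v1, v2⟩ := exists_mem_notMem_of_card_lt_card (card_le_two (a := z) (b := y)|>.trans_lt c3)
      simp only [mem_insert, mem_singleton, not_or] at v2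
      exact ⟨v, v2.1, v2.2, c' v v1⟩
    · push Not at c'
      obtain ⟨z, z1, z2⟩ := c'
      refine ⟨z, z1, fun y hy ⟨i, i1, i2, i3⟩ => ?_⟩
      obtain ⟨k, k1, k2, v, -, v2, v3⟩ := h t tt i i1 i2
      exact ⟨v, fun e => z2 k k1 k2 (e ▸ v3), (mem_erase.1 (v2 (mem_inter.2
        ⟨i3, (mem_sdiff.1 hy).1⟩))).1.symm, k, k1, k2, v3⟩
  let s' : W → Y := fun p => if ∃ i < t, T i ∧ p ∈ F i then s p else g z p • s z
  have a1 : ∀ i < t, T i → ∀ p ∈ F i, s' p = s p := fun i a b p c => if_pos ⟨i, a, b, c⟩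
  have a2 : ∀ y ∈ F t \ M, s' y = g z y • s z := fun y hy => by
    by_cases c : ∃ i < t, T i ∧ y ∈ F i
    · obtain ⟨v, v1, v2, k, k1, k2, k3⟩ := z2 y hy c
      exact (if_pos c).trans (hs k k1 k2 z (mem_sdiff.2 ⟨k3 (mem_erase.2 ⟨v1.symm, (mem_sdiff.1 z1).1⟩),
        (mem_sdiff.1 z1).2⟩) y (mem_sdiff.2 ⟨k3 (mem_erase.2 ⟨v2.symm, (mem_sdiff.1 hy).1⟩),
        (mem_sdiff.1 hy).2⟩)).symm
    · exact if_neg c
  refine Or.inl ⟨s', a1, fun i hi ti x hx y hy => ?_⟩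
  rcases Nat.lt_succ_iff_lt_or_eq.1 hi with l | rfl
  · rw [a1 i l ti x (mem_sdiff.1 hx).1, a1 i l ti y (mem_sdiff.1 hy).1]
    exact hs i l ti x hx y hy
  · rw [a2 x hx, a2 y hy, smul_smul, h2 ti z z1 x hx y hy]

theorem flat {T : ℕ → Prop} {F : ℕ → Finset W} (h : Sh T F) (M N : Finset W) (g : W → W → P3)
    (su : W → W → Fin 3) (n1 : N.card = 3) (n2 : N ⊆ M)
    (h0 : ∀ i, T i → 4 ≤ (F i \ M).card + (F i ∩ N).card) (h1 : ∀ i, T i → ¬ N ⊆ F i)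
    (h2 : ∀ i, T i → ∀ x ∈ F i \ M, ∀ y ∈ F i \ M, ∀ z ∈ F i \ M, g y z * g x y = g x z)
    (h3 : ∀ i, T i → ∀ u ∈ F i ∩ N, Fl g (su u) (F i \ M))
    (h4 : ∀ i, T i → ∀ u ∈ F i ∩ N, ∀ v ∈ F i ∩ N, ∀ p ∈ F i \ M, su u p = su v p) (t : ℕ) :
    ∃ s : W → Fin 3, ∀ i < t, T i → Fl g s (F i \ M) := by
  classical
  have c1 : ∀ i, T i → 2 ≤ (F i \ M).card := fun i ti => by
    have := h0 i ti
    have := card_lt_card (s := F i ∩ N) (t := N) ⟨inter_subset_right,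
      fun a => h1 i ti (a.trans inter_subset_left)⟩
    omega
  have c2 : ∀ {t k x}, x ∈ F t \ M → (F t).erase x ⊆ F k → F t ∩ N ⊆ F k ∩ N :=
    fun hx a u hu => mem_inter.2 ⟨a (mem_erase.2 ⟨fun e => (mem_sdiff.1 hx).2
      (e ▸ n2 (mem_inter.1 hu).2), (mem_inter.1 hu).1⟩), (mem_inter.1 hu).2⟩
  have p1 : ∀ t, (∀ k, k + 1 < t → ¬ (T k ∧ 2 ≤ (F k ∩ N).card)) →
      ∃ s : W → P3, ∀ i < t, T i → Fl g s (F i \ M) := by
    intro t
    induction t with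
    | zero => exact fun _ => ⟨fun _ => 1, by simp⟩
    | succ t ih =>
      intro a
      obtain ⟨s, hs⟩ := ih fun k hk => a k (by omega)
      rcases exte h M g t (c1 t) (h2 t) s hs with ⟨s', -, b⟩ | ⟨b1, b2, b3⟩
      · exact ⟨s', b⟩
      obtain ⟨x, hx⟩ := card_pos.1 (two_pos.trans_le (c1 t b1))
      obtain ⟨k, k1, k2, k3⟩ := b3 x hx
      have := h0 t b1
      exact absurd ⟨k2, le_trans (by omega) (card_le_card (c2 hx k3))⟩ (a k (by omega))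
  have p0 : ∀ (s : W → P3) (c : Fin 3) (G : Finset W), Fl g s G → Fl g (fun p => s p • c) G :=
    fun s c G a x hx y hy => by
      show g x y • s x • c = s y • c
      rw [← a x hx y hy, smul_smul]
      rfl
  by_cases ex : ∃ k < t, T k ∧ 2 ≤ (F k ∩ N).card
  swap
  · obtain ⟨s, hs⟩ := p1 t fun k hk a => ex ⟨k, by omega, a⟩
    exact ⟨_, fun i a b => p0 s 0 _ (hs i a b)⟩
  obtain ⟨k1, k2, k3⟩ := Nat.find_spec ex
  have k4 := fun k => Nat.find_min ex (m := k)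
  generalize Nat.find ex = t0 at k1 k2 k3 k4
  obtain ⟨x0, hx0⟩ := card_pos.1 (two_pos.trans_le (c1 t0 k2))
  obtain ⟨u0, hu0⟩ := card_pos.1 (two_pos.trans_le k3)
  suffices ∀ t, t0 + 1 ≤ t → ∃ s : W → Fin 3, (∀ i < t, T i → Fl g s (F i \ M)) ∧ s x0 = su u0 x0 from
    (this t k1).imp fun _ a => a.1
  intro r hr
  induction r, hr using Nat.le_induction with
  | base =>
    obtain ⟨s, hs⟩ := p1 (t0 + 1) fun k hk a => k4 k (by omega) ⟨by omega, a⟩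
    exact ⟨_, fun i a b => p0 s ((s x0)⁻¹ • su u0 x0) _ (hs i a b), smul_inv_smul _ _⟩
  | succ r hr ih =>
    obtain ⟨s, hs, e⟩ := ih
    rcases exte h M g r (c1 r) (h2 r) s hs with ⟨s', a, b⟩ | ⟨b1, b2, b3⟩
    · exact ⟨s', b, (a t0 hr k2 x0 (mem_sdiff.1 hx0).1).trans e⟩
    obtain ⟨u, hu⟩ : (F t0 ∩ N ∩ (F r ∩ N)).Nonempty := by
      have := h0 r b1
      have := card_union_add_card_inter (F t0 ∩ N) (F r ∩ N)
      have := card_le_card (union_subset (inter_subset_right (s₁ := F t0) (s₂ := N))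
        (inter_subset_right (s₁ := F r)))
      exact card_pos.1 (by omega)
    obtain ⟨u1, u2⟩ := mem_inter.1 hu
    have key : ∀ x ∈ F r \ M, s x = su u x := fun x hx => by
      obtain ⟨y, y1, y2⟩ := exists_mem_ne (c1 r b1) x
      obtain ⟨k, a1, a2, a3⟩ := b3 y y1
      exact uniq (h.link {u}) M g (fun i a => c1 i a.1) s (su u) r (fun i a b => hs i a b.1)
        (fun i _ b => h3 i b.1 u (mem_inter.2 ⟨singleton_subset_iff.1 b.2, (mem_inter.1 u1).2⟩)) hr a1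
        ⟨k2, singleton_subset_iff.2 (mem_inter.1 u1).1⟩
        ⟨a2, singleton_subset_iff.2 (mem_inter.1 (c2 y1 a3 u2)).1⟩ hx0
        (mem_sdiff.2 ⟨a3 (mem_erase.2 ⟨y2.symm, (mem_sdiff.1 hx).1⟩), (mem_sdiff.1 hx).2⟩)
        (e.trans (h4 t0 k2 u0 hu0 u u1 x0 hx0))
    refine ⟨s, fun i hi ti => ?_, e⟩
    rcases Nat.lt_succ_iff_lt_or_eq.1 hi with l | rfl
    · exact hs i l ti
    · intro x hx y hy
      rw [key x hx, key y hy]
      exact h3 i ti u u2 x hx y hy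

end Pool.Agent.H.MP_a8759f_co
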