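import Mathlib
import Pool.Agent.H.MP_16c276_co.A
import Pool.Agent.H.MP_a8759f_co.A
set_option autoImplicit false
set_option maxRecDepth 100000

namespace Pool.Agent.H.MP_a8759f_co
open Finset Pool.Agent.H.MP_16c276_co

theorem sub_iff {n : ℕ} (l : List ℕ) (a : ℕ) (w : Fin n) (h1 : a < 2 ^ n) (G : Finset (Fin n)) :
    (∃ m ∈ sub n l a w, dec n m = G) ↔ ((∃ m ∈ l, dec n m = G) ∧ ¬ dec n a ⊆ G) ∨
      ∃ F, (∃ m ∈ l, dec n m = F) ∧ dec n a ⊆ F ∧ ∃ i ∈ dec n a, G = insert w (F.erase i) := by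
  constructor
  · rintro ⟨m, hm, rfl⟩
    obtain ⟨f, hf, e⟩ := List.mem_flatMap.1 hm
    split_ifs at e with c
    · obtain ⟨i, hi, rfl⟩ := List.mem_map.1 e
      obtain ⟨i1, i2⟩ := List.mem_filter.1 hi
      have i3 : (⟨i, List.mem_range.1 i1⟩ : Fin n) ∈ dec n a := mem_dec.2 i2
      exact Or.inr ⟨_, ⟨f, hf, rfl⟩, sub1 c, _, i3, by
        rw [dec_or, ← dec_xor (mem_dec.1 (sub1 c i3))]⟩
    · obtain rfl := List.mem_singleton.1 e
      exact Or.inl ⟨⟨m, hf, rfl⟩, fun h => c (sub2 h1 h)⟩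
  · rintro (⟨⟨f, hf, rfl⟩, c⟩ | ⟨_, ⟨f, hf, rfl⟩, c, i, hi, rfl⟩)
    · exact ⟨f, List.mem_flatMap.2 ⟨f, hf, by simp [show f &&& a ≠ a from fun h => c (sub1 h)]⟩, rfl⟩
    · refine ⟨(f ^^^ 2 ^ i.1) ||| 2 ^ w.1, List.mem_flatMap.2 ⟨f, hf, ?_⟩, by
        rw [dec_or, dec_xor (mem_dec.1 (c hi))]⟩
      rw [if_pos (sub2 h1 c)]
      exact List.mem_map.2 ⟨i, List.mem_filter.2 ⟨List.mem_range.2 i.2, mem_dec.1 hi⟩, rfl⟩

structure Jn (n : ℕ) where
  O : Finset (Fin n) → Prop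
  C : Finset (Fin n) → Prop
  ι : Fin 14 ↪ Fin n
  hC : ∀ c, C c → ∀ i, ι i ∉ c
  hO : ∀ o, O o → ∀ i : Fin 14, 4 ≤ i.1 → ι i ∉ o
  hO' : ∀ o, O o → ¬ ∀ i : Fin 14, i.1 < 4 → ι i ∈ o

def Jn.Φ {n : ℕ} (J : Jn n) (l : List ℕ) (G : Finset (Fin n)) : Prop :=
  J.O G ∨ ∃ c, J.C c ∧ ∃ m ∈ l, G = c ∪ (dec 14 m).map J.ι

def okI (a : ℕ) : Bool := a == 15 || (List.range 14).any fun i => 4 ≤ i && a.testBit i

theorem subJ {n : ℕ} (J : Jn n) (l : List ℕ) (a : ℕ) (h : okS 14 l a 13 = true) (h' : okI a = true) :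
    Nonempty (R (J.Φ (sub 14 l a 13)) ≃ₜ R (J.Φ l)) := by
  simp only [okS, Bool.and_eq_true, decide_eq_true_eq, List.all_eq_true, Bool.not_eq_true'] at h
  obtain ⟨⟨⟨h0, h1⟩, h2⟩, h3⟩ := h
  have k1 : ∀ o, J.O o → ¬ (dec 14 a).map J.ι ⊆ o := fun o ho c => by
    simp only [okI, Bool.or_eq_true, beq_iff_eq, List.any_eq_true, Bool.and_eq_true,
      decide_eq_true_eq, List.mem_range] at h'
    rcases h' with rfl | ⟨i, i1, i2, i3⟩
    · exact J.hO' o ho fun i hi => c (mem_map_of_mem _ (by revert i; decide))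
    · exact J.hO o ho ⟨i, i1⟩ i2 (c (mem_map_of_mem _ (mem_dec.2 i3)))
  have k2 : ∀ c, J.C c → ∀ A B : Finset (Fin 14), A.map J.ι ⊆ c ∪ B.map J.ι ↔ A ⊆ B :=
    fun c hc A B => ⟨fun h i hi => (mem_map' _).1 ((mem_union.1 (h (mem_map_of_mem _ hi))).resolve_left
      (J.hC c hc i)), fun h => (map_subset_map.2 h).trans subset_union_right⟩
  have k3 : ∀ c, J.C c → ∀ (B : Finset (Fin 14)) i, c ∪ (insert 13 (B.erase i)).map J.ι =
      insert (J.ι 13) ((c ∪ B.map J.ι).erase (J.ι i)) := fun c hc B i => by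
    rw [map_insert, map_erase, union_insert, erase_union_distrib, erase_eq_of_notMem (J.hC c hc i)]
  refine stellar _ _ ((dec 14 a).map J.ι) (map_nonempty.2 (nonempty_iff_ne_empty.2 fun e =>
    h0.ne' (inj h1 (by norm_num) (e.trans (by decide))))) (J.ι 13) (by simpa [mem_dec] using h2) ?_
    fun G => ⟨?_, ?_⟩
  · rintro _ (ho | ⟨c, hc, m, hm, rfl⟩)
    · exact J.hO _ ho 13 (by decide)
    · simpa [J.hC c hc, mem_dec] using h3 m hm
  · rintro (ho | ⟨c, hc, m, hm, rfl⟩)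
    · exact Or.inl ⟨Or.inl ho, k1 _ ho⟩
    rcases (sub_iff l a (13 : Fin 14) h1 _).1 ⟨m, hm, rfl⟩ with ⟨⟨f, hf, e⟩, b⟩ | ⟨_, ⟨f, hf, rfl⟩, b, i, hi, e⟩
    · exact Or.inl ⟨Or.inr ⟨c, hc, f, hf, e ▸ rfl⟩, fun h => b ((k2 c hc _ _).1 h)⟩
    · exact Or.inr ⟨_, Or.inr ⟨c, hc, f, hf, rfl⟩, (k2 c hc _ _).2 b, _, mem_map_of_mem _ hi,
        e ▸ k3 c hc _ _⟩
  · rintro (⟨ho | ⟨c, hc, f, hf, rfl⟩, b⟩ | ⟨_, ho | ⟨c, hc, f, hf, rfl⟩, b, i, hi, rfl⟩)
    · exact Or.inl ho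
    · obtain ⟨m, hm, e⟩ := (sub_iff l a (13 : Fin 14) h1 _).2
        (Or.inl ⟨⟨f, hf, rfl⟩, fun h => b ((k2 c hc _ _).2 h)⟩)
      exact Or.inr ⟨c, hc, m, hm, e ▸ rfl⟩
    · exact absurd b (k1 _ ho)
    · obtain ⟨j, hj, rfl⟩ := mem_map.1 hi
      obtain ⟨m, hm, e⟩ := (sub_iff l a (13 : Fin 14) h1 _).2
        (Or.inr ⟨_, ⟨f, hf, rfl⟩, (k2 c hc _ _).1 b, j, hj, rfl⟩)
      exact Or.inr ⟨c, hc, m, hm, e ▸ (k3 c hc _ _).symm⟩

theorem covJ {n : ℕ} (J : Jn n) {l l' : List ℕ} (h : cov l l' = true) : R (J.Φ l) ⊆ R (J.Φ l') := by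
  rintro x ⟨x0, x1, _, ho | ⟨c, hc, m, hm, rfl⟩, x2⟩
  · exact ⟨x0, x1, _, Or.inl ho, x2⟩
  obtain ⟨f, hf, e⟩ := List.any_eq_true.1 (List.all_eq_true.1 h m hm)
  exact ⟨x0, x1, _, Or.inr ⟨c, hc, f, hf, rfl⟩, fun i hi => x2 i fun h => hi
    (union_subset_union_right (map_subset_map.2 (sub1 (beq_iff_eq.1 e))) h)⟩

def chJ : List ℕ → List (ℕ × ℕ × List ℕ) → Bool
  | l, [] => l == [15]
  | l, (a, b, l') :: t => okS 14 l a 13 && okS 14 l' b 13 && okI a && okI b &&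
      cov (sub 14 l a 13) (sub 14 l' b 13) && cov (sub 14 l' b 13) (sub 14 l a 13) && chJ l' t

theorem chJ_ok {n : ℕ} (J : Jn n) (t : List (ℕ × ℕ × List ℕ)) : ∀ l, chJ l t = true →
    Nonempty (R (J.Φ l) ≃ₜ R (J.Φ [15])) := by
  induction t with
  | nil =>
    intro l h
    obtain rfl : l = [15] := by simpa [chJ] using h
    exact ⟨Homeomorph.refl _⟩
  | cons x t ih =>
    obtain ⟨a, b, l'⟩ := x
    intro l h
    simp only [chJ, Bool.and_eq_true] at h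
    obtain ⟨⟨⟨⟨⟨⟨h1, h2⟩, i1⟩, i2⟩, h3⟩, h4⟩, h5⟩ := h
    obtain ⟨e1⟩ := subJ J l a h1 i1
    obtain ⟨e2⟩ := subJ J l' b h2 i2
    obtain ⟨e3⟩ := ih l' h5
    exact ⟨e1.symm.trans ((Homeomorph.setCongr ((covJ J h3).antisymm (covJ J h4))).trans
      (e2.trans e3))⟩

theorem emb {n n' : ℕ} (e : Fin n ↪ Fin n') (P : Finset (Fin n) → Prop) :
    Nonempty (R (fun G => ∃ F, P F ∧ G = F.map e) ≃ₜ R P) := by
  have k : ∀ x : Fin n' → ℝ, (∀ i, (¬ ∃ j, e j = i) → x i = 0) → ∑ j, x (e j) = ∑ i, x i :=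
    fun x h => by
      rw [← sum_map univ e]
      exact sum_subset (subset_univ _) fun i _ hi => h i (by simpa using hi)
  have k1 : ∀ x ∈ R (fun G => ∃ F, P F ∧ G = F.map e), (∀ i, (¬ ∃ j, e j = i) → x i = 0) ∧
      x ∘ e ∈ R P := by
    rintro x ⟨x0, x1, _, ⟨F, hF, rfl⟩, x2⟩
    have : ∀ i, (¬ ∃ j, e j = i) → x i = 0 := fun i hi => x2 i fun h =>
      hi ((mem_map.1 h).imp fun _ a => a.2)
    exact ⟨this, fun i => x0 _, (k x this).trans x1, F, hF, fun i hi => x2 _ (by simpa using hi)⟩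
  have k2 : ∀ y ∈ R P, Function.extend e y 0 ∈ R (fun G => ∃ F, P F ∧ G = F.map e) := by
    rintro y ⟨y0, y1, F, hF, y2⟩
    refine ⟨fun i => ?_, ?_, _, ⟨F, hF, rfl⟩, fun i hi => ?_⟩
    · by_cases h : ∃ j, e j = i
      · obtain ⟨j, rfl⟩ := h
        rw [e.injective.extend_apply]
        exact y0 j
      · rw [Function.extend_apply' _ _ _ h]
        rfl
    · rw [← k (Function.extend e y 0) fun i h => Function.extend_apply' _ _ _ h]
      simpa only [e.injective.extend_apply] using y1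
    · by_cases h : ∃ j, e j = i
      · obtain ⟨j, rfl⟩ := h
        rw [e.injective.extend_apply]
        exact y2 j (by simpa using hi)
      · exact Function.extend_apply' _ _ _ h
  refine ⟨⟨⟨fun x => ⟨_, (k1 x x.2).2⟩, fun y => ⟨_, k2 y y.2⟩, fun x => Subtype.ext (funext fun i => ?_),
    fun y => Subtype.ext (funext fun i => e.injective.extend_apply _ _ _)⟩,
    Continuous.subtype_mk (continuous_pi fun i => ?_) _,
    Continuous.subtype_mk (continuous_pi fun i => ?_) _⟩⟩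
  · by_cases h : ∃ j, e j = i
    · obtain ⟨j, rfl⟩ := h
      exact e.injective.extend_apply _ _ _
    · exact (Function.extend_apply' _ _ _ h).trans ((k1 x x.2).1 i h).symm
  · exact (continuous_apply (e i)).comp continuous_subtype_val
  · by_cases h : ∃ j, e j = i
    · obtain ⟨j, rfl⟩ := h
      simp only [e.injective.extend_apply]
      exact (continuous_apply j).comp continuous_subtype_val
    · simp only [Function.extend_apply' _ _ _ h]
      fun_prop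

noncomputable def R0 : List ℕ :=
  [30, 45, 75, 195, 226, 263, 278, 340, 387, 418, 540, 556, 610, 705, 736, 808, 897, 928, 1108,
  1298, 1314, 1320, 1352, 1360, 1554, 1556, 1570, 1572, 2074, 2085, 2097, 2122, 2309, 2372, 2376,
  2577, 2584, 2817, 2824, 3108, 3140, 4137, 4145, 4169, 4625, 4626, 4673, 4674, 5160, 5192, 6162,
  6192, 6210, 7200, 7232]

noncomputable def ch : List (ℕ × ℕ × List ℕ) :=
  [(48, 6145, [30, 45, 75, 195, 226, 263, 278, 340, 387, 418, 540, 556, 610, 705, 736, 808, 897,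
  928, 1108, 1298, 1314, 1320, 1352, 1360, 1554, 1556, 1570, 1572, 2074, 2085, 2122, 2309, 2372,
  2376, 2577, 2584, 2817, 2824, 3108, 3140, 4137, 4169, 4625, 4626, 4673, 4674, 5160, 5192, 6161,
  6162, 6177, 6210, 7200, 7232]), (17, 6656, [30, 45, 75, 195, 226, 263, 278, 340, 387, 418, 540,
  556, 610, 705, 736, 808, 897, 928, 1108, 1298, 1314, 1320, 1352, 1360, 1554, 1556, 1570, 1572,
  2074, 2085, 2122, 2309, 2372, 2376, 2584, 2817, 2824, 3108, 3140, 4137, 4169, 4626, 4673, 4674,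
  5160, 5192, 6162, 6177, 6210, 6657, 6672, 7200, 7232]), (80, 1284, [30, 45, 75, 195, 226, 263,
  278, 387, 418, 540, 556, 610, 705, 736, 808, 897, 928, 1298, 1300, 1314, 1320, 1348, 1352, 1554,
  1556, 1570, 1572, 2074, 2085, 2122, 2309, 2372, 2376, 2584, 2817, 2824, 3108, 3140, 4137, 4169,
  4626, 4673, 4674, 5160, 5192, 6162, 6177, 6210, 6657, 6672, 7200, 7232]), (68, 3328, [30, 45,
  75, 195, 226, 263, 278, 387, 418, 540, 556, 610, 705, 736, 808, 897, 928, 1298, 1300, 1314,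
  1320, 1352, 1554, 1556, 1570, 1572, 2074, 2085, 2122, 2309, 2376, 2584, 2817, 2824, 3108, 3332,
  3392, 4137, 4169, 4626, 4673, 4674, 5160, 5192, 6162, 6177, 6210, 6657, 6672, 7200, 7232]), (96,
  642, [30, 45, 75, 195, 263, 278, 387, 418, 540, 556, 674, 705, 706, 808, 897, 928, 1298, 1300,
  1314, 1320, 1352, 1554, 1556, 1570, 1572, 2074, 2085, 2122, 2309, 2376, 2584, 2817, 2824, 3108,
  3332, 3392, 4137, 4169, 4626, 4673, 4674, 5160, 5192, 6162, 6177, 6210, 6657, 6672, 7200,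
  7232]), (160, 770, [30, 45, 75, 195, 263, 278, 387, 540, 556, 705, 706, 802, 808, 897, 898,
  1298, 1300, 1314, 1320, 1352, 1554, 1556, 1570, 1572, 2074, 2085, 2122, 2309, 2376, 2584, 2817,
  2824, 3108, 3332, 3392, 4137, 4169, 4626, 4673, 4674, 5160, 5192, 6162, 6177, 6210, 6657, 6672,
  7200, 7232]), (272, 1030, [30, 45, 75, 195, 263, 387, 540, 556, 705, 706, 802, 808, 897, 898,
  1046, 1286, 1314, 1320, 1352, 1554, 1556, 1570, 1572, 2074, 2085, 2122, 2309, 2376, 2584, 2817,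
  2824, 3108, 3332, 3392, 4137, 4169, 4626, 4673, 4674, 5160, 5192, 6162, 6177, 6210, 6657, 6672,
  7200, 7232]), (4112, 2562, [30, 45, 75, 195, 263, 387, 540, 556, 705, 706, 802, 808, 897, 898,
  1046, 1286, 1314, 1320, 1352, 1554, 1556, 1570, 1572, 2074, 2085, 2122, 2309, 2376, 2578, 2584,
  2817, 2824, 3108, 3332, 3392, 4137, 4169, 4673, 4674, 5160, 5192, 6177, 6210, 6657, 6658, 7200,
  7232]), (2064, 522, [30, 45, 75, 195, 263, 387, 538, 540, 556, 705, 706, 802, 808, 897, 898,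
  1046, 1286, 1314, 1320, 1352, 1554, 1556, 1570, 1572, 2085, 2122, 2309, 2376, 2570, 2817, 2824,
  3108, 3332, 3392, 4137, 4169, 4673, 4674, 5160, 5192, 6177, 6210, 6657, 6658, 7200, 7232]),
  (384, 515, [30, 45, 75, 195, 263, 538, 540, 556, 643, 705, 706, 771, 802, 808, 1046, 1286, 1314,
  1320, 1352, 1554, 1556, 1570, 1572, 2085, 2122, 2309, 2376, 2570, 2817, 2824, 3108, 3332, 3392,
  4137, 4169, 4673, 4674, 5160, 5192, 6177, 6210, 6657, 6658, 7200, 7232]), (128, 579, [30, 45,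
  75, 263, 538, 540, 556, 579, 771, 802, 808, 1046, 1286, 1314, 1320, 1352, 1554, 1556, 1570,
  1572, 2085, 2122, 2309, 2376, 2570, 2817, 2824, 3108, 3332, 3392, 4137, 4169, 4673, 4674, 5160,
  5192, 6177, 6210, 6657, 6658, 7200, 7232]), (24, 518, [45, 75, 263, 526, 534, 556, 579, 771,
  802, 808, 1046, 1286, 1314, 1320, 1352, 1554, 1556, 1570, 1572, 2085, 2122, 2309, 2376, 2570,
  2817, 2824, 3108, 3332, 3392, 4137, 4169, 4673, 4674, 5160, 5192, 6177, 6210, 6657, 6658, 7200,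
  7232]), (16, 1542, [45, 75, 263, 526, 556, 579, 771, 802, 808, 1286, 1314, 1320, 1352, 1542,
  1570, 1572, 2085, 2122, 2309, 2376, 2570, 2817, 2824, 3108, 3332, 3392, 4137, 4169, 4673, 4674,
  5160, 5192, 6177, 6210, 6657, 6658, 7200, 7232]), (320, 3080, [45, 75, 263, 526, 556, 579, 771,
  802, 808, 1286, 1314, 1320, 1542, 1570, 1572, 2085, 2122, 2309, 2570, 2817, 2824, 3108, 3144,
  3332, 3336, 4137, 4169, 4673, 4674, 5160, 5192, 6177, 6210, 6657, 6658, 7200, 7232]), (576,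
  4099, [45, 75, 263, 526, 556, 771, 802, 808, 1286, 1314, 1320, 1542, 1570, 1572, 2085, 2122,
  2309, 2570, 2817, 2824, 3108, 3144, 3332, 3336, 4137, 4163, 4169, 4611, 5160, 5192, 6177, 6210,
  6657, 6658, 7200, 7232]), (4608, 2051, [45, 75, 263, 526, 556, 771, 802, 808, 1286, 1314, 1320,
  1542, 1570, 1572, 2085, 2122, 2309, 2563, 2570, 2817, 2824, 3108, 3144, 3332, 3336, 4137, 4163,
  4169, 5160, 5192, 6147, 6177, 6210, 7200, 7232]), (4098, 2113, [45, 75, 263, 526, 556, 771, 802,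
  808, 1286, 1314, 1320, 1542, 1570, 1572, 2085, 2115, 2122, 2309, 2563, 2570, 2817, 2824, 3108,
  3144, 3332, 3336, 4137, 4169, 5160, 5192, 6177, 6209, 7200, 7232]), (1536, 38, [45, 75, 263,
  526, 550, 556, 771, 802, 808, 1062, 1286, 1314, 1320, 2085, 2115, 2122, 2309, 2563, 2570, 2817,
  2824, 3108, 3144, 3332, 3336, 4137, 4169, 5160, 5192, 6177, 6209, 7200, 7232]), (1088, 6152,
  [45, 75, 263, 526, 550, 556, 771, 802, 808, 1062, 1286, 1314, 1320, 2085, 2115, 2122, 2309,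
  2563, 2570, 2817, 2824, 3108, 3332, 3336, 4137, 4169, 5160, 6177, 6209, 6216, 7176, 7200]),
  (5120, 2088, [45, 75, 263, 526, 550, 556, 771, 802, 808, 1062, 1286, 1314, 1320, 2085, 2115,
  2122, 2309, 2563, 2570, 2817, 2824, 3108, 3112, 3332, 3336, 4137, 4169, 6177, 6184, 6209,
  6216]), (4160, 2057, [45, 75, 263, 526, 550, 556, 771, 802, 808, 1062, 1286, 1314, 1320, 2085,
  2115, 2121, 2122, 2309, 2563, 2570, 2817, 2824, 3108, 3112, 3332, 3336, 4137, 6153, 6177,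
  6184]), (64, 2059, [45, 263, 526, 550, 556, 771, 802, 808, 1062, 1286, 1314, 1320, 2059, 2085,
  2309, 2563, 2570, 2817, 2824, 3108, 3112, 3332, 3336, 4137, 6153, 6177, 6184]), (4096, 2089,
  [45, 263, 526, 550, 556, 771, 802, 808, 1062, 1286, 1314, 1320, 2059, 2085, 2089, 2309, 2563,
  2570, 2817, 2824, 3108, 3112, 3332, 3336]), (1032, 2336, [45, 263, 526, 550, 556, 771, 802, 808,
  1062, 1286, 1314, 2059, 2085, 2089, 2309, 2344, 2563, 2570, 2817, 2824, 3108, 3332, 3360]),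
  (3072, 292, [45, 263, 526, 550, 556, 771, 802, 808, 1062, 1286, 1314, 1316, 2059, 2085, 2089,
  2309, 2340, 2344, 2563, 2570, 2817, 2824]), (1024, 294, [45, 263, 294, 526, 550, 556, 771, 802,
  808, 2059, 2085, 2089, 2309, 2340, 2344, 2563, 2570, 2817, 2824]), (2052, 289, [45, 263, 293,
  294, 526, 550, 556, 771, 802, 808, 2059, 2089, 2337, 2344, 2563, 2570, 2817, 2824]), (34, 772,
  [45, 263, 293, 526, 556, 771, 774, 804, 808, 2059, 2089, 2337, 2344, 2563, 2570, 2817, 2824]),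
  (544, 268, [45, 263, 293, 300, 526, 771, 774, 780, 2059, 2089, 2337, 2344, 2563, 2570, 2817,
  2824]), (513, 2306, [45, 263, 293, 300, 526, 774, 780, 2059, 2089, 2307, 2337, 2344, 2570, 2818,
  2824]), (516, 266, [45, 263, 270, 293, 300, 778, 2059, 2089, 2307, 2337, 2344, 2570, 2818,
  2824]), (512, 2314, [45, 263, 270, 293, 300, 2059, 2089, 2307, 2314, 2337, 2344]), (36, 265,
  [263, 269, 270, 297, 2059, 2089, 2307, 2314, 2337, 2344]), (32, 2313, [263, 269, 270, 2059,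
  2307, 2313, 2314]), (2048, 267, [263, 267, 269, 270]), (256, 15, [15])]

theorem c1 : chJ R0 ch = true := by decide +kernel

open Equiv in
def g0 (x y : Fin 14) : P3 := [1, swap 0 1, swap 0 2, swap 1 2, swap 0 1 * swap 1 2,
  swap 1 2 * swap 0 1].getD (55127906116136558152734279620341117714175265510696194324402630902418357225860157405594096629989584510153460816262077673947838938781103161344 /
    6 ^ (14 * x.1 + y.1) % 6) 1

def s0 (u x : Fin 14) : Fin 3 :=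
  Fin.ofNat 3 (5813041015418722171760616631196152573498360887 / 3 ^ (14 * u.1 + x.1))

def N0 : Finset (Fin 14) := {4, 5, 6}

set_option synthInstance.maxSize 4096 in
theorem c2 : ∀ m ∈ 8207 :: R0, (∀ x ∈ dec 14 m \ N0, ∀ y ∈ dec 14 m \ N0, ∀ z ∈ dec 14 m \ N0,
    g0 y z * g0 x y = g0 x z) ∧ ∀ u ∈ dec 14 m ∩ N0, ∀ x ∈ dec 14 m \ N0,
    (∀ y ∈ dec 14 m \ N0, g0 x y • s0 u x = s0 u y) ∧ ∀ v ∈ dec 14 m ∩ N0, s0 u x = s0 v x := by
  decide +kernel

theorem c3 : ∀ m ∈ R0, (dec 14 m).card = 4 ∧ ¬ N0 ⊆ dec 14 m := by decide +kernel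

theorem c4 (s : Fin 14 → Fin 3) : ¬ ∀ m ∈ R0, ∀ x ∈ dec 14 m \ N0, ∀ y ∈ dec 14 m \ N0,
    g0 x y • s x = s y := fun h => by
  have a := h 45 (by decide) 0 (by decide) 3 (by decide)
  have b := h 263 (by decide) 0 (by decide) 8 (by decide)
  have c := h 808 (by decide) 3 (by decide) 8 (by decide)
  generalize s 0 = p, s 3 = q, s 8 = r at a b c
  revert p q r
  decide +kernel

end Pool.Agent.H.MP_a8759f_co
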